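import Mathlib

open scoped BigOperators ENNReal

namespace Pool.Agent.Results.MP_e9a5f2_an.ConditionalA

section Definitions

variable {𝕜 : Type} [RCLike 𝕜] {X : Type} [NormedAddCommGroup X] [NormedSpace 𝕜 X]

/-- `(e n)` is a semi-normalized Markushevich basis of `X` with biorthogonal functionals
`(f n)`. -/
structure IsSemiNormalizedMBasis (e : ℕ → X) (f : ℕ → X →L[𝕜] 𝕜) : Prop where
  biorthogonal : ∀ k n, f k (e n) = if k = n then 1 else 0
  dense_span : Dense (Submodule.span 𝕜 (Set.range e) : Set X)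
  total : ∀ x : X, (∀ n, f n x = 0) → x = 0
  bounded : ∃ C : ℝ, ∀ n, ‖e n‖ ≤ C ∧ ‖f n‖ ≤ C

/-- Property (A), symmetry for largest coefficients. -/
def PropertyA (e : ℕ → X) (f : ℕ → X →L[𝕜] 𝕜) : Prop :=
  ∀ (x : X) (A B : Finset ℕ) (ε η : ℕ → 𝕜),
    (∀ n, ‖f n x‖ ≤ 1) → A.card = B.card → Disjoint A B →
    (∀ n ∈ A, f n x = 0) → (∀ n ∈ B, f n x = 0) →
    (∀ n ∈ A, ‖ε n‖ = 1) → (∀ n ∈ B, ‖η n‖ = 1) →
    ‖x + ∑ n ∈ A, ε n • e n‖ = ‖x + ∑ n ∈ B, η n • e n‖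

/-- The basis is unconditional: the expansion of every vector converges unconditionally to it. -/
def IsUnconditional (e : ℕ → X) (f : ℕ → X →L[𝕜] 𝕜) : Prop :=
  ∀ x : X, HasSum (fun n => f n x • e n) x

end Definitions

section Space

variable (𝕜 : Type) [RCLike 𝕜]

/-- Index set of the norming functionals. -/
structure Idx where
  A : Finset ℕ
  hA : A.Nonempty
  K : ℕ
  ε : ℕ → 𝕜
  hε : ∀ n, ‖ε n‖ = 1

variable {𝕜}

/-- The weight `1 / √(max (n + 1) a)`. -/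
noncomputable def w (a n : ℕ) : ℝ := (√((max (n + 1) a : ℕ) : ℝ))⁻¹

lemma w_nonneg (a n : ℕ) : 0 ≤ w a n := inv_nonneg.2 (Real.sqrt_nonneg _)

lemma w_le_inv_sqrt {a : ℕ} (ha : 0 < a) (n : ℕ) : w a n ≤ (√(a : ℝ))⁻¹ := by
  unfold w
  apply inv_anti₀
  · exact Real.sqrt_pos.2 (by exact_mod_cast ha)
  · apply Real.sqrt_le_sqrt
    exact_mod_cast le_max_right _ _

lemma inv_sqrt_le_one {a : ℕ} (ha : 0 < a) : (√(a : ℝ))⁻¹ ≤ 1 := by
  apply inv_le_one_of_one_le₀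
  rw [Real.one_le_sqrt]
  exact_mod_cast ha

/-- The coefficients of the norming functionals. -/
noncomputable def coef (i : Idx 𝕜) (n : ℕ) : 𝕜 :=
  if n ∈ i.A then i.ε n * (((√(i.A.card : ℝ))⁻¹ : ℝ) : 𝕜)
  else if n < i.K then (((1 / 8 * w i.A.card n : ℝ)) : 𝕜) else 0

lemma norm_coef_le (i : Idx 𝕜) (n : ℕ) : ‖coef i n‖ ≤ 1 := by
  have hc : 0 < i.A.card := Finset.card_pos.2 i.hA
  unfold coef
  split_ifs
  · rw [norm_mul, i.hε, one_mul, RCLike.norm_ofReal, abs_of_nonneg (inv_nonneg.2 (Real.sqrt_nonneg _))]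
    exact inv_sqrt_le_one hc
  · have h1 := w_le_inv_sqrt hc n
    have h2 := inv_sqrt_le_one hc
    have h3 := w_nonneg i.A.card n
    rw [RCLike.norm_ofReal, abs_of_nonneg (by linarith)]
    linarith
  · simp

variable (𝕜)

/-- The ambient space `ℓ_∞(Idx)`. -/
abbrev Amb : Type := lp (fun _ : Idx 𝕜 => 𝕜) ∞

variable {𝕜}

/-- The basis vectors in the ambient space. -/
noncomputable def e' (n : ℕ) : Amb 𝕜 :=
  ⟨fun i => coef i n, memℓp_infty ⟨1, by rintro _ ⟨i, rfl⟩; exact norm_coef_le i n⟩⟩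

lemma e'_apply (n : ℕ) (i : Idx 𝕜) : e' n i = coef i n := rfl

variable (𝕜)

/-- The space: the closed linear span of the vectors `e' n`. -/
abbrev Sp : Type := ↥((Submodule.span 𝕜 (Set.range (e' (𝕜 := 𝕜)))).topologicalClosure)

/-- the basis -/
noncomputable def e (n : ℕ) : Sp 𝕜 :=
  ⟨e' n, subset_closure (Submodule.subset_span ⟨n, rfl⟩)⟩

/-- the evaluation functionals -/
noncomputable def ev (i : Idx 𝕜) : Sp 𝕜 →L[𝕜] 𝕜 :=
  (lp.evalCLM 𝕜 (fun _ : Idx 𝕜 => 𝕜) ∞ i).comp (Submodule.subtypeL _)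

/-- the index of the `n`-th coordinate functional -/
def idx (n : ℕ) : Idx 𝕜 := ⟨{n}, by simp, 0, fun _ => 1, fun _ => norm_one⟩

/-- the coordinate functionals -/
noncomputable def f (n : ℕ) : Sp 𝕜 →L[𝕜] 𝕜 := ev 𝕜 (idx 𝕜 n)

variable {𝕜}

lemma ev_apply (i : Idx 𝕜) (x : Sp 𝕜) : ev 𝕜 i x = (x : Amb 𝕜) i := rfl

lemma ev_e (i : Idx 𝕜) (n : ℕ) : ev 𝕜 i (e 𝕜 n) = coef i n := rfl

lemma f_e (k n : ℕ) : f 𝕜 k (e 𝕜 n) = if k = n then 1 else 0 := by
  show coef (idx 𝕜 k) n = _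
  unfold coef idx
  by_cases h : k = n
  · simp [h]
  · have h' : n ≠ k := fun h' => h h'.symm
    simp [h, h']

/-- every evaluation is a finite combination of coordinates -/
lemma ev_eq (i : Idx 𝕜) (x : Sp 𝕜) :
    ev 𝕜 i x = ∑ n ∈ i.A ∪ Finset.range i.K, coef i n * f 𝕜 n x := by
  have hcl : IsClosed {y : Amb 𝕜 | y i = ∑ n ∈ i.A ∪ Finset.range i.K, coef i n * y (idx 𝕜 n)} := by
    apply isClosed_eq
    · exact (lp.evalCLM 𝕜 (fun _ : Idx 𝕜 => 𝕜) ∞ i).continuous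
    · exact continuous_finsetSum _ fun n _ => continuous_const.mul
        (lp.evalCLM 𝕜 (fun _ : Idx 𝕜 => 𝕜) ∞ (idx 𝕜 n)).continuous
  have hsub : ((Submodule.span 𝕜 (Set.range (e' (𝕜 := 𝕜))) : Submodule 𝕜 (Amb 𝕜)) : Set (Amb 𝕜)) ⊆
      {y : Amb 𝕜 | y i = ∑ n ∈ i.A ∪ Finset.range i.K, coef i n * y (idx 𝕜 n)} := by
    intro y hy
    induction hy using Submodule.span_induction with
    | mem y hy =>
      obtain ⟨m, rfl⟩ := hy
      show coef i m = ∑ n ∈ i.A ∪ Finset.range i.K, coef i n * coef (idx 𝕜 n) m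
      have h1 : ∀ n, coef (idx 𝕜 n) m = if n = m then 1 else 0 := fun n => f_e n m
      simp only [h1, mul_ite, mul_one, mul_zero]
      rw [Finset.sum_ite_eq']
      split_ifs with h
      · rfl
      · simp only [Finset.mem_union, Finset.mem_range, not_or] at h
        unfold coef
        rw [if_neg h.1, if_neg h.2]
    | zero => simp
    | add y z _ _ hy hz =>
      have hy' : y i = ∑ n ∈ i.A ∪ Finset.range i.K, coef i n * y (idx 𝕜 n) := hy
      have hz' : z i = ∑ n ∈ i.A ∪ Finset.range i.K, coef i n * z (idx 𝕜 n) := hz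
      show y i + z i = ∑ n ∈ i.A ∪ Finset.range i.K, coef i n * (y (idx 𝕜 n) + z (idx 𝕜 n))
      simp only [mul_add, Finset.sum_add_distrib]
      rw [← hy', ← hz']
    | smul c y _ hy =>
      have hy' : y i = ∑ n ∈ i.A ∪ Finset.range i.K, coef i n * y (idx 𝕜 n) := hy
      show c * y i = ∑ n ∈ i.A ∪ Finset.range i.K, coef i n * (c * y (idx 𝕜 n))
      rw [hy', Finset.mul_sum]
      exact Finset.sum_congr rfl fun n _ => by ring
  exact closure_minimal hsub hcl x.2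

/-- The value `V(A, K, y)`. -/
noncomputable def V (A : Finset ℕ) (K : ℕ) (y : ℕ → 𝕜) : ℝ :=
  (√(A.card : ℝ))⁻¹ * ∑ n ∈ A, ‖y n‖ +
    1 / 8 * ‖∑ n ∈ Finset.range K \ A, ((w A.card n : ℝ) : 𝕜) * y n‖

lemma V_nonneg (A : Finset ℕ) (K : ℕ) (y : ℕ → 𝕜) : 0 ≤ V A K y := by
  unfold V
  have h1 : 0 ≤ (√(A.card : ℝ))⁻¹ := inv_nonneg.2 (Real.sqrt_nonneg _)
  have h2 : 0 ≤ ∑ n ∈ A, ‖y n‖ := Finset.sum_nonneg fun _ _ => norm_nonneg _
  have h3 := mul_nonneg h1 h2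
  have h4 := norm_nonneg (∑ n ∈ Finset.range K \ A, ((w A.card n : ℝ) : 𝕜) * y n)
  linarith

lemma ev_eq' (i : Idx 𝕜) (x : Sp 𝕜) :
    ev 𝕜 i x = (((√(i.A.card : ℝ))⁻¹ : ℝ) : 𝕜) * ∑ n ∈ i.A, i.ε n * f 𝕜 n x +
      ((1 / 8 : ℝ) : 𝕜) * ∑ n ∈ Finset.range i.K \ i.A, ((w i.A.card n : ℝ) : 𝕜) * f 𝕜 n x := by
  rw [ev_eq, ← Finset.union_sdiff_self_eq_union, Finset.sum_union Finset.disjoint_sdiff,
    Finset.mul_sum, Finset.mul_sum]
  congr 1
  · refine Finset.sum_congr rfl fun n hn => ?_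
    unfold coef
    rw [if_pos hn]
    ring
  · refine Finset.sum_congr rfl fun n hn => ?_
    rw [Finset.mem_sdiff, Finset.mem_range] at hn
    unfold coef
    rw [if_neg hn.2, if_pos hn.1]
    push_cast
    ring

lemma norm_ev_le (i : Idx 𝕜) (x : Sp 𝕜) : ‖ev 𝕜 i x‖ ≤ V i.A i.K (fun n => f 𝕜 n x) := by
  rw [ev_eq']
  refine (norm_add_le _ _).trans ?_
  rw [norm_mul, norm_mul, RCLike.norm_ofReal, RCLike.norm_ofReal,
    abs_of_nonneg (inv_nonneg.2 (Real.sqrt_nonneg _)), abs_of_nonneg (by norm_num)]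
  unfold V
  have h1 : ‖∑ n ∈ i.A, i.ε n * f 𝕜 n x‖ ≤ ∑ n ∈ i.A, ‖f 𝕜 n x‖ := by
    refine (norm_sum_le _ _).trans (Finset.sum_le_sum fun n _ => ?_)
    rw [norm_mul, i.hε, one_mul]
  have h2 : 0 ≤ (√(i.A.card : ℝ))⁻¹ := inv_nonneg.2 (Real.sqrt_nonneg _)
  have h3 := mul_le_mul_of_nonneg_left h1 h2
  linarith

lemma norm_le_of_V {x : Sp 𝕜} {R : ℝ}
    (h : ∀ (A : Finset ℕ) (K : ℕ), A.Nonempty → V A K (fun n => f 𝕜 n x) ≤ R) : ‖x‖ ≤ R := by
  have hR : 0 ≤ R := (V_nonneg _ _ _).trans (h {0} 0 (by simp))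
  exact lp.norm_le_of_forall_le hR fun i => (norm_ev_le i x).trans (h i.A i.K i.hA)

lemma norm_ev_le_norm (i : Idx 𝕜) (x : Sp 𝕜) : ‖ev 𝕜 i x‖ ≤ ‖x‖ :=
  lp.norm_apply_le_norm (by simp) (x : Amb 𝕜) i

lemma exists_phase (z : 𝕜) : ∃ u : 𝕜, ‖u‖ = 1 ∧ z = (‖z‖ : 𝕜) * u := by
  by_cases hz : z = 0
  · exact ⟨1, norm_one, by simp [hz]⟩
  · have h : (‖z‖ : 𝕜) ≠ 0 := by simpa using hz
    refine ⟨z / (‖z‖ : 𝕜), ?_, by field_simp⟩
    rw [norm_div, RCLike.norm_ofReal, abs_of_nonneg (norm_nonneg z), div_self (by simpa using hz)]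

lemma exists_align (z u : 𝕜) (hu : ‖u‖ = 1) : ∃ ε : 𝕜, ‖ε‖ = 1 ∧ ε * z = (‖z‖ : 𝕜) * u := by
  by_cases hz : z = 0
  · exact ⟨1, norm_one, by simp [hz]⟩
  · refine ⟨(‖z‖ : 𝕜) * u / z, ?_, by field_simp⟩
    rw [norm_div, norm_mul, RCLike.norm_ofReal, abs_of_nonneg (norm_nonneg z), hu, mul_one,
      div_self (by simpa using hz)]

lemma V_le_norm (A : Finset ℕ) (K : ℕ) (hA : A.Nonempty) (x : Sp 𝕜) :
    V A K (fun n => f 𝕜 n x) ≤ ‖x‖ := by
  obtain ⟨u, hu, hS⟩ := exists_phase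
    (∑ n ∈ Finset.range K \ A, ((w A.card n : ℝ) : 𝕜) * f 𝕜 n x)
  choose ε hε1 hε2 using fun n => exists_align (f 𝕜 n x) u hu
  let i : Idx 𝕜 := ⟨A, hA, K, ε, hε1⟩
  have h1 : ev 𝕜 i x = ((V A K (fun n => f 𝕜 n x) : ℝ) : 𝕜) * u := by
    rw [ev_eq']
    have h2 : ∑ n ∈ i.A, i.ε n * f 𝕜 n x = ((∑ n ∈ A, ‖f 𝕜 n x‖ : ℝ) : 𝕜) * u := by
      rw [RCLike.ofReal_sum, Finset.sum_mul]
      exact Finset.sum_congr rfl fun n _ => hε2 n
    have h3 : ∑ n ∈ Finset.range i.K \ i.A, ((w i.A.card n : ℝ) : 𝕜) * f 𝕜 n x =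
        (‖∑ n ∈ Finset.range K \ A, ((w A.card n : ℝ) : 𝕜) * f 𝕜 n x‖ : 𝕜) * u := hS
    rw [h2, h3]
    unfold V
    push_cast
    ring
  have h4 : ‖ev 𝕜 i x‖ = V A K (fun n => f 𝕜 n x) := by
    rw [h1, norm_mul, hu, mul_one, RCLike.norm_ofReal, abs_of_nonneg (V_nonneg _ _ _)]
  rw [← h4]
  exact norm_ev_le_norm i x

lemma w_eq_of_lt {a n : ℕ} (h : n < a) : w a n = (√(a : ℝ))⁻¹ := by
  unfold w; rw [max_eq_right (by omega)]

lemma w_eq_of_le {a n : ℕ} (h : a ≤ n + 1) : w a n = (√((n + 1 : ℕ) : ℝ))⁻¹ := by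
  unfold w; rw [max_eq_left h]

lemma w_anti (a n : ℕ) (ha : 0 < a) : w (a + 1) n ≤ w a n := by
  unfold w
  apply inv_anti₀
  · apply Real.sqrt_pos.2
    have : 0 < max (n + 1) a := lt_max_of_lt_right ha
    exact_mod_cast this
  · apply Real.sqrt_le_sqrt
    exact_mod_cast max_le_max_left _ (Nat.le_succ a)

lemma sum_w_sub_le (a : ℕ) (ha : 0 < a) (U : Finset ℕ) :
    ∑ n ∈ U, (w a n - w (a + 1) n) ≤ a * ((√(a : ℝ))⁻¹ - (√((a + 1 : ℕ) : ℝ))⁻¹) := by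
  have h1 : ∑ n ∈ U, (w a n - w (a + 1) n) = ∑ n ∈ U.filter (· < a), (w a n - w (a + 1) n) := by
    rw [Finset.sum_filter_of_ne]
    intro n _ hn
    by_contra h
    apply hn
    rw [w_eq_of_le (by omega), w_eq_of_le (by omega), sub_self]
  rw [h1]
  have h2 : ∑ n ∈ U.filter (· < a), (w a n - w (a + 1) n) ≤
      ∑ n ∈ Finset.range a, (w a n - w (a + 1) n) := by
    apply Finset.sum_le_sum_of_subset_of_nonneg
    · intro n hn
      rw [Finset.mem_filter] at hn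
      exact Finset.mem_range.2 hn.2
    · intro n _ _
      exact sub_nonneg.2 (w_anti a n ha)
  refine h2.trans (le_of_eq ?_)
  have h3 : ∀ n ∈ Finset.range a, w a n - w (a + 1) n =
      (√(a : ℝ))⁻¹ - (√((a + 1 : ℕ) : ℝ))⁻¹ := by
    intro n hn
    rw [Finset.mem_range] at hn
    rw [w_eq_of_lt hn, w_eq_of_lt (by omega)]
  rw [Finset.sum_congr rfl h3, Finset.sum_const, Finset.card_range, nsmul_eq_mul]

lemma sqrt_ineq (a : ℕ) (ha : 0 < a) :
    (9 / 8) * (a * ((√(a : ℝ))⁻¹ - (√((a + 1 : ℕ) : ℝ))⁻¹)) + 1 / 8 * (√(a : ℝ))⁻¹ ≤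
      (√((a + 1 : ℕ) : ℝ))⁻¹ := by
  have ha' : (1 : ℝ) ≤ a := by exact_mod_cast ha
  set r := √(a : ℝ) with hr
  set s := √((a + 1 : ℕ) : ℝ) with hs
  have hr2 : r * r = a := Real.mul_self_sqrt (by linarith)
  have hs2 : s * s = a + 1 := by
    have := Real.mul_self_sqrt (show (0 : ℝ) ≤ ((a + 1 : ℕ) : ℝ) by positivity)
    rw [← hs] at this
    rw [this]; push_cast; ring
  have hr1 : 1 ≤ r := by rw [hr, Real.one_le_sqrt]; exact ha'
  have hs0 : 0 ≤ s := Real.sqrt_nonneg _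
  have hrs : r ≤ s := by
    rw [hr, hs]; apply Real.sqrt_le_sqrt; push_cast; linarith
  have hs2r : s ≤ 2 * r := by nlinarith
  have hri : r * r⁻¹ = 1 := mul_inv_cancel₀ (by linarith)
  have hsi : s * s⁻¹ = 1 := mul_inv_cancel₀ (by linarith)
  have hri0 : 0 < r⁻¹ := inv_pos.2 (by linarith)
  have hsi0 : 0 < s⁻¹ := inv_pos.2 (by linarith)
  have hle : s⁻¹ ≤ r⁻¹ := inv_anti₀ (by linarith) hrs
  have h1 : (a : ℝ) * (r⁻¹ - s⁻¹) = s⁻¹ - (s - r) := by
    have e1 : (a : ℝ) * r⁻¹ = r := by rw [← hr2, mul_assoc, hri, mul_one]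
    have e2 : (a : ℝ) * s⁻¹ = s - s⁻¹ := by
      have : (a : ℝ) = s * s - 1 := by linarith
      rw [this, sub_mul, mul_assoc, hsi]; ring
    rw [mul_sub, e1, e2]; ring
  have h2 : (s - r) * (s + r) = 1 := by ring_nf; nlinarith
  have h3 : r⁻¹ ≤ 3 * (s - r) := by
    have : 1 ≤ (s - r) * (3 * r) := by nlinarith
    rw [inv_le_iff_one_le_mul₀ (by linarith)]
    linarith
  rw [h1]
  linarith

/-- The main point: adding a largest coefficient to `D` does not decrease `V(D, K, y)`. -/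
lemma V_insert (D : Finset ℕ) (K : ℕ) (hD : D.Nonempty) (y : ℕ → 𝕜) {t : ℝ}
    (hy : ∀ n, ‖y n‖ ≤ t) {m : ℕ} (hm : m ∉ D) (hmt : ‖y m‖ = t) :
    V D K y ≤ V (insert m D) K y := by
  have ha : 0 < D.card := Finset.card_pos.2 hD
  have ht : 0 ≤ t := hmt ▸ norm_nonneg _
  unfold V
  rw [Finset.card_insert_of_notMem hm, Finset.sum_insert hm, hmt]
  set a := D.card with hacard
  set S := ∑ n ∈ D, ‖y n‖ with hS
  have hSle : S ≤ a * t := by
    have := Finset.sum_le_card_nsmul D (fun n => ‖y n‖) t fun n _ => hy n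
    rwa [nsmul_eq_mul] at this
  set P := ∑ n ∈ Finset.range K \ D, ((w a n : ℝ) : 𝕜) * y n with hP
  set Q := ∑ n ∈ Finset.range K \ insert m D, ((w (a + 1) n : ℝ) : 𝕜) * y n with hQ
  have hri0 : 0 ≤ (√(a : ℝ))⁻¹ := inv_nonneg.2 (Real.sqrt_nonneg _)
  have hdiff : 0 ≤ (√(a : ℝ))⁻¹ - (√((a + 1 : ℕ) : ℝ))⁻¹ := by
    apply sub_nonneg.2
    apply inv_anti₀
    · exact Real.sqrt_pos.2 (by exact_mod_cast ha)
    · apply Real.sqrt_le_sqrt; push_cast; linarith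
  have hPQ : ‖P‖ ≤ ‖Q‖ + (√(a : ℝ))⁻¹ * t +
      t * (a * ((√(a : ℝ))⁻¹ - (√((a + 1 : ℕ) : ℝ))⁻¹)) := by
    have h1 : P = Q + (∑ n ∈ Finset.range K \ insert m D, ((w a n - w (a + 1) n : ℝ) : 𝕜) * y n) +
        (if m < K then ((w a m : ℝ) : 𝕜) * y m else 0) := by
      have h2 : Q + (∑ n ∈ Finset.range K \ insert m D,
          ((w a n - w (a + 1) n : ℝ) : 𝕜) * y n) =
          ∑ n ∈ Finset.range K \ insert m D, ((w a n : ℝ) : 𝕜) * y n := by
        rw [hQ, ← Finset.sum_add_distrib]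
        refine Finset.sum_congr rfl fun n _ => ?_
        push_cast; ring
      rw [h2, hP]
      split_ifs with hmK
      · have h3 : Finset.range K \ D = insert m (Finset.range K \ insert m D) := by
          ext n
          simp only [Finset.mem_sdiff, Finset.mem_range, Finset.mem_insert, not_or]
          constructor
          · rintro ⟨h4, h5⟩
            by_cases h6 : n = m
            · exact Or.inl h6
            · exact Or.inr ⟨h4, h6, h5⟩
          · rintro (h4 | ⟨h4, _, h5⟩)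
            · subst h4; exact ⟨hmK, hm⟩
            · exact ⟨h4, h5⟩
        rw [h3, Finset.sum_insert (by simp)]
        ring
      · have h3 : Finset.range K \ D = Finset.range K \ insert m D := by
          ext n
          simp only [Finset.mem_sdiff, Finset.mem_range, Finset.mem_insert, not_or]
          constructor
          · rintro ⟨h4, h5⟩
            exact ⟨h4, fun h6 => hmK (h6 ▸ h4), h5⟩
          · rintro ⟨h4, _, h5⟩
            exact ⟨h4, h5⟩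
        rw [h3, add_zero]
    have h2 : ‖∑ n ∈ Finset.range K \ insert m D, ((w a n - w (a + 1) n : ℝ) : 𝕜) * y n‖ ≤
        t * (a * ((√(a : ℝ))⁻¹ - (√((a + 1 : ℕ) : ℝ))⁻¹)) := by
      refine (norm_sum_le _ _).trans ?_
      have h3 : ∀ n ∈ Finset.range K \ insert m D,
          ‖((w a n - w (a + 1) n : ℝ) : 𝕜) * y n‖ ≤ t * (w a n - w (a + 1) n) := by
        intro n _
        have h4 : 0 ≤ w a n - w (a + 1) n := sub_nonneg.2 (w_anti a n ha)
        rw [norm_mul, RCLike.norm_ofReal, abs_of_nonneg h4, mul_comm]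
        exact mul_le_mul_of_nonneg_right (hy n) h4
      refine (Finset.sum_le_sum h3).trans ?_
      rw [← Finset.mul_sum]
      exact mul_le_mul_of_nonneg_left (sum_w_sub_le a ha _) ht
    have h3 : ‖(if m < K then ((w a m : ℝ) : 𝕜) * y m else 0)‖ ≤ (√(a : ℝ))⁻¹ * t := by
      split_ifs
      · rw [norm_mul, RCLike.norm_ofReal, abs_of_nonneg (w_nonneg a m), hmt]
        exact mul_le_mul_of_nonneg_right (w_le_inv_sqrt ha m) ht
      · rw [norm_zero]; exact mul_nonneg hri0 ht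
    rw [h1]
    have h4 := norm_add_le (Q + (∑ n ∈ Finset.range K \ insert m D,
      ((w a n - w (a + 1) n : ℝ) : 𝕜) * y n)) (if m < K then ((w a m : ℝ) : 𝕜) * y m else 0)
    have h5 := norm_add_le Q (∑ n ∈ Finset.range K \ insert m D,
      ((w a n - w (a + 1) n : ℝ) : 𝕜) * y n)
    linarith
  have hfin := mul_le_mul_of_nonneg_left (sqrt_ineq a ha) ht
  have hSd := mul_le_mul_of_nonneg_right hSle hdiff
  nlinarith

lemma V_union (D : Finset ℕ) (K : ℕ) (hD : D.Nonempty) (y : ℕ → 𝕜) {t : ℝ}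
    (hy : ∀ n, ‖y n‖ ≤ t) (A : Finset ℕ) (hA : ∀ n ∈ A, ‖y n‖ = t) :
    V D K y ≤ V (D ∪ A) K y := by
  induction A using Finset.induction_on with
  | empty => rw [Finset.union_empty]
  | insert m A hm ih =>
    have h1 := ih fun n hn => hA n (Finset.mem_insert_of_mem hn)
    rw [Finset.union_insert]
    by_cases h : m ∈ D ∪ A
    · rw [Finset.insert_eq_of_mem h]; exact h1
    · exact h1.trans (V_insert _ K (hD.mono Finset.subset_union_left) y hy h
        (hA m (Finset.mem_insert_self m A)))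

/-- Moving the largest coefficients from `A` to `B`. -/
lemma V_swap (D A B : Finset ℕ) (K : ℕ) (hD : D.Nonempty) (hAD : A ⊆ D) (hcard : A.card = B.card)
    (hAB : Disjoint A B) (y ε η : ℕ → 𝕜) (hyA : ∀ n ∈ A, y n = 0) (hyB : ∀ n ∈ B, y n = 0)
    (hε : ∀ n ∈ A, ‖ε n‖ = 1) (hη : ∀ n ∈ B, ‖η n‖ = 1) :
    ∃ D' : Finset ℕ, D'.Nonempty ∧
      V D K (fun n => y n + if n ∈ A then ε n else 0) =
        V D' K (fun n => y n + if n ∈ B then η n else 0) := by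
  have hle : (D ∩ B).card ≤ A.card := by
    rw [hcard]; exact Finset.card_le_card Finset.inter_subset_right
  obtain ⟨A₁, hA₁, hA₁c⟩ := Finset.exists_subset_card_eq hle
  set R := D \ (A ∪ B) with hR
  have hRA : Disjoint R A := by
    rw [Finset.disjoint_left]; intro n hn; simp only [hR, Finset.mem_sdiff, Finset.mem_union] at hn
    exact fun h => hn.2 (Or.inl h)
  have hRB : Disjoint R B := by
    rw [Finset.disjoint_left]; intro n hn; simp only [hR, Finset.mem_sdiff, Finset.mem_union] at hn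
    exact fun h => hn.2 (Or.inr h)
  have hDdecomp : D = (R ∪ A) ∪ (D ∩ B) := by
    ext n
    simp only [hR, Finset.mem_union, Finset.mem_sdiff, Finset.mem_inter]
    constructor
    · intro h
      by_cases h1 : n ∈ A
      · exact Or.inl (Or.inr h1)
      · by_cases h2 : n ∈ B
        · exact Or.inr ⟨h, h2⟩
        · exact Or.inl (Or.inl ⟨h, by simp [h1, h2]⟩)
    · rintro ((⟨h, _⟩ | h) | ⟨h, _⟩)
      · exact h
      · exact hAD h
      · exact h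
  have hd1 : Disjoint (R ∪ A) (D ∩ B) := by
    rw [Finset.disjoint_union_left]
    exact ⟨hRB.mono_right Finset.inter_subset_right, hAB.mono_right Finset.inter_subset_right⟩
  have hd2 : Disjoint (R ∪ B) A₁ := by
    rw [Finset.disjoint_union_left]
    exact ⟨hRA.mono_right hA₁, hAB.symm.mono_right hA₁⟩
  set D' := (R ∪ B) ∪ A₁ with hD'
  have hcardD : D.card = R.card + A.card + (D ∩ B).card := by
    conv_lhs => rw [hDdecomp]
    rw [Finset.card_union_of_disjoint hd1, Finset.card_union_of_disjoint hRA]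
  have hcardD' : D'.card = D.card := by
    rw [hD', Finset.card_union_of_disjoint hd2, Finset.card_union_of_disjoint hRB, hcardD, hcard,
      hA₁c]
  refine ⟨D', ?_, ?_⟩
  · rw [← Finset.card_pos, hcardD', Finset.card_pos]; exact hD
  have hyR : ∀ n ∈ R, n ∉ A ∧ n ∉ B := fun n hn =>
    ⟨fun h => Finset.disjoint_left.1 hRA hn h, fun h => Finset.disjoint_left.1 hRB hn h⟩
  have hs1 : ∑ n ∈ D, ‖y n + if n ∈ A then ε n else 0‖ = ∑ n ∈ R, ‖y n‖ + A.card := by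
    conv_lhs => rw [hDdecomp]
    rw [Finset.sum_union hd1, Finset.sum_union hRA]
    have e1 : ∑ n ∈ R, ‖y n + if n ∈ A then ε n else 0‖ = ∑ n ∈ R, ‖y n‖ :=
      Finset.sum_congr rfl fun n hn => by rw [if_neg (hyR n hn).1, add_zero]
    have e2 : ∑ n ∈ A, ‖y n + if n ∈ A then ε n else 0‖ = A.card := by
      rw [Finset.sum_congr rfl (g := fun _ => (1 : ℝ)) fun n hn => by
        rw [if_pos hn, hyA n hn, zero_add, hε n hn]]
      simp
    have e3 : ∑ n ∈ D ∩ B, ‖y n + if n ∈ A then ε n else 0‖ = 0 := by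
      apply Finset.sum_eq_zero
      intro n hn
      rw [Finset.mem_inter] at hn
      rw [if_neg fun h => Finset.disjoint_left.1 hAB h hn.2, hyB n hn.2, add_zero, norm_zero]
    rw [e1, e2, e3, add_zero]
  have hs2 : ∑ n ∈ D', ‖y n + if n ∈ B then η n else 0‖ = ∑ n ∈ R, ‖y n‖ + A.card := by
    rw [hD', Finset.sum_union hd2, Finset.sum_union hRB]
    have e1 : ∑ n ∈ R, ‖y n + if n ∈ B then η n else 0‖ = ∑ n ∈ R, ‖y n‖ :=
      Finset.sum_congr rfl fun n hn => by rw [if_neg (hyR n hn).2, add_zero]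
    have e2 : ∑ n ∈ B, ‖y n + if n ∈ B then η n else 0‖ = B.card := by
      rw [Finset.sum_congr rfl (g := fun _ => (1 : ℝ)) fun n hn => by
        rw [if_pos hn, hyB n hn, zero_add, hη n hn]]
      simp
    have e3 : ∑ n ∈ A₁, ‖y n + if n ∈ B then η n else 0‖ = 0 := by
      apply Finset.sum_eq_zero
      intro n hn
      rw [if_neg fun h => Finset.disjoint_left.1 hAB (hA₁ hn) h, hyA n (hA₁ hn), add_zero,
        norm_zero]
    rw [e1, e2, e3, add_zero, hcard]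
  have hf1 : ∀ c : ℕ, ∑ n ∈ Finset.range K \ D,
      ((w c n : ℝ) : 𝕜) * (y n + if n ∈ A then ε n else 0) =
      ∑ n ∈ Finset.range K \ (R ∪ A ∪ B), ((w c n : ℝ) : 𝕜) * y n := by
    intro c
    symm
    have hsub : Finset.range K \ (R ∪ A ∪ B) ⊆ Finset.range K \ D := by
      intro n
      simp only [hR, Finset.mem_sdiff, Finset.mem_union, not_or, not_and]
      rintro ⟨h1, ⟨h2, h3⟩, h4⟩
      exact ⟨h1, fun h => by have := h2 h; simp [h3, h4] at this⟩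
    rw [← Finset.sum_subset hsub]
    · refine Finset.sum_congr rfl fun n hn => ?_
      simp only [Finset.mem_sdiff, Finset.mem_union, not_or] at hn
      rw [if_neg hn.2.1.2, add_zero]
    · intro n hn hn2
      simp only [Finset.mem_sdiff, Finset.mem_union, not_or, not_and, not_not] at hn hn2
      have hnA : n ∉ A := fun h => hn.2 (hAD h)
      have hnR : n ∉ R := fun h => hn.2 (by rw [hR, Finset.mem_sdiff] at h; exact h.1)
      have hnB : n ∈ B := hn2 hn.1 ⟨hnR, hnA⟩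
      rw [if_neg hnA, hyB n hnB]; simp
  have hf2 : ∀ c : ℕ, ∑ n ∈ Finset.range K \ D',
      ((w c n : ℝ) : 𝕜) * (y n + if n ∈ B then η n else 0) =
      ∑ n ∈ Finset.range K \ (R ∪ A ∪ B), ((w c n : ℝ) : 𝕜) * y n := by
    intro c
    symm
    have hsub : Finset.range K \ (R ∪ A ∪ B) ⊆ Finset.range K \ D' := by
      intro n
      simp only [hD', Finset.mem_sdiff, Finset.mem_union, not_or]
      rintro ⟨h1, ⟨h2, h3⟩, h4⟩
      exact ⟨h1, ⟨h2, h4⟩, fun h => h3 (hA₁ h)⟩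
    rw [← Finset.sum_subset hsub]
    · refine Finset.sum_congr rfl fun n hn => ?_
      simp only [Finset.mem_sdiff, Finset.mem_union, not_or] at hn
      rw [if_neg hn.2.2, add_zero]
    · intro n hn hn2
      simp only [hD', Finset.mem_sdiff, Finset.mem_union, not_or, not_and, not_not] at hn hn2
      have hnA : n ∈ A := by
        by_contra h
        exact hn.2.1.2 (hn2 hn.1 ⟨hn.2.1.1, h⟩)
      rw [if_neg hn.2.1.2, hyA n hnA]; simp
  unfold V
  rw [hs1, hs2, hcardD', hf1, hf2]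

lemma f_sum (A : Finset ℕ) (a : ℕ → 𝕜) (k : ℕ) :
    f 𝕜 k (∑ n ∈ A, a n • e 𝕜 n) = if k ∈ A then a k else 0 := by
  rw [map_sum]
  simp only [map_smul, f_e, smul_eq_mul, mul_ite, mul_one, mul_zero]
  rw [Finset.sum_ite_eq]

lemma propA_le (x : Sp 𝕜) (A B : Finset ℕ) (ε η : ℕ → 𝕜)
    (hx : ∀ n, ‖f 𝕜 n x‖ ≤ 1) (hcard : A.card = B.card) (hAB : Disjoint A B)
    (hxA : ∀ n ∈ A, f 𝕜 n x = 0) (hxB : ∀ n ∈ B, f 𝕜 n x = 0)
    (hε : ∀ n ∈ A, ‖ε n‖ = 1) (hη : ∀ n ∈ B, ‖η n‖ = 1) :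
    ‖x + ∑ n ∈ A, ε n • e 𝕜 n‖ ≤ ‖x + ∑ n ∈ B, η n • e 𝕜 n‖ := by
  apply norm_le_of_V
  intro D K hD
  have h1 : (fun n => f 𝕜 n (x + ∑ n ∈ A, ε n • e 𝕜 n)) =
      fun n => f 𝕜 n x + if n ∈ A then ε n else 0 := by
    funext n; rw [map_add, f_sum]
  have h2 : (fun n => f 𝕜 n (x + ∑ n ∈ B, η n • e 𝕜 n)) =
      fun n => f 𝕜 n x + if n ∈ B then η n else 0 := by
    funext n; rw [map_add, f_sum]
  rw [h1]
  have hn1 : ∀ n, ‖f 𝕜 n x + if n ∈ A then ε n else 0‖ ≤ 1 := by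
    intro n
    split_ifs with h
    · rw [hxA n h, zero_add, hε n h]
    · rw [add_zero]; exact hx n
  have hn2 : ∀ n ∈ A, ‖f 𝕜 n x + if n ∈ A then ε n else 0‖ = 1 := by
    intro n h
    rw [if_pos h, hxA n h, zero_add, hε n h]
  refine (V_union D K hD _ hn1 A hn2).trans ?_
  obtain ⟨D', hD', h3⟩ := V_swap (D ∪ A) A B K (hD.mono Finset.subset_union_left)
    Finset.subset_union_right hcard hAB (fun n => f 𝕜 n x) ε η hxA hxB hε hη
  rw [h3, ← h2]
  exact V_le_norm D' K hD' _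

lemma propertyA : PropertyA (e 𝕜) (f 𝕜) := by
  intro x A B ε η hx hcard hAB hxA hxB hε hη
  exact le_antisymm (propA_le x A B ε η hx hcard hAB hxA hxB hε hη)
    (propA_le x B A η ε hx hcard.symm hAB.symm hxB hxA hη hε)

/-! ### Basis properties -/

lemma norm_e_le (n : ℕ) : ‖e 𝕜 n‖ ≤ 1 :=
  lp.norm_le_of_forall_le zero_le_one fun i => norm_coef_le i n

lemma norm_f_apply_le (n : ℕ) (x : Sp 𝕜) : ‖f 𝕜 n x‖ ≤ ‖x‖ := norm_ev_le_norm _ x

lemma norm_f_le (n : ℕ) : ‖f 𝕜 n‖ ≤ 1 :=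
  ContinuousLinearMap.opNorm_le_bound _ zero_le_one fun x => by
    rw [one_mul]; exact norm_f_apply_le n x

lemma norm_e (n : ℕ) : ‖e 𝕜 n‖ = 1 := by
  apply le_antisymm (norm_e_le n)
  have := norm_f_apply_le n (e 𝕜 n)
  rwa [f_e, if_pos rfl, norm_one] at this

lemma norm_f (n : ℕ) : ‖f 𝕜 n‖ = 1 := by
  apply le_antisymm (norm_f_le n)
  have := (f 𝕜 n).le_opNorm (e 𝕜 n)
  rwa [norm_e, f_e, if_pos rfl, norm_one, mul_one] at this

lemma dense_span : Dense (Submodule.span 𝕜 (Set.range (e 𝕜)) : Set (Sp 𝕜)) := by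
  intro x
  rw [Metric.mem_closure_iff]
  intro δ hδ
  have hx : (x : Amb 𝕜) ∈ closure ((Submodule.span 𝕜 (Set.range (e' (𝕜 := 𝕜))) :
    Submodule 𝕜 (Amb 𝕜)) : Set (Amb 𝕜)) := x.2
  rw [Metric.mem_closure_iff] at hx
  obtain ⟨y, hy, hxy⟩ := hx δ hδ
  refine ⟨⟨y, subset_closure hy⟩, ?_, hxy⟩
  have key : ∀ z ∈ Submodule.span 𝕜 (Set.range (e' (𝕜 := 𝕜))), ∀ hz : z ∈
      (Submodule.span 𝕜 (Set.range (e' (𝕜 := 𝕜)))).topologicalClosure,
      (⟨z, hz⟩ : Sp 𝕜) ∈ Submodule.span 𝕜 (Set.range (e 𝕜)) := by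
    intro z hz
    induction hz using Submodule.span_induction with
    | mem z hz =>
      obtain ⟨n, rfl⟩ := hz
      intro _
      exact Submodule.subset_span ⟨n, rfl⟩
    | zero => intro _; exact Submodule.zero_mem _
    | add y z hy hz ihy ihz =>
      intro _
      exact Submodule.add_mem _ (ihy (subset_closure hy)) (ihz (subset_closure hz))
    | smul c y hy ihy =>
      intro _
      exact Submodule.smul_mem _ c (ihy (subset_closure hy))
  exact key y hy _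

lemma isSemiNormalizedMBasis : IsSemiNormalizedMBasis (e 𝕜) (f 𝕜) where
  biorthogonal := f_e
  dense_span := dense_span
  total x h := by
    have h1 : ‖x‖ ≤ 0 := by
      apply norm_le_of_V
      intro A K _
      unfold V
      simp [h]
    exact norm_eq_zero.1 (le_antisymm h1 (norm_nonneg x))
  bounded := ⟨1, fun n => ⟨norm_e_le n, norm_f_le n⟩⟩

/-! ### Schauder basis -/

lemma norm_partial_le (m : ℕ) (x : Sp 𝕜) :
    ‖∑ n ∈ Finset.range m, f 𝕜 n x • e 𝕜 n‖ ≤ ‖x‖ := by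
  apply norm_le_of_V
  intro A K hA
  refine le_trans ?_ (V_le_norm A (min K m) hA x)
  have h1 : (fun n => f 𝕜 n (∑ n ∈ Finset.range m, f 𝕜 n x • e 𝕜 n)) =
      fun n => if n < m then f 𝕜 n x else 0 := by
    funext n; rw [f_sum]; simp only [Finset.mem_range]
  rw [h1]
  unfold V
  have h2 : ∑ n ∈ A, ‖if n < m then f 𝕜 n x else 0‖ ≤ ∑ n ∈ A, ‖f 𝕜 n x‖ := by
    apply Finset.sum_le_sum
    intro n _
    split_ifs
    · exact le_rfl
    · rw [norm_zero]; exact norm_nonneg _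
  have h3 : ∑ n ∈ Finset.range K \ A, ((w A.card n : ℝ) : 𝕜) * (if n < m then f 𝕜 n x else 0) =
      ∑ n ∈ Finset.range (min K m) \ A, ((w A.card n : ℝ) : 𝕜) * f 𝕜 n x := by
    symm
    have hsub : Finset.range (min K m) \ A ⊆ Finset.range K \ A := by
      intro n
      simp only [Finset.mem_sdiff, Finset.mem_range, lt_min_iff]
      rintro ⟨⟨h1, _⟩, h2⟩
      exact ⟨h1, h2⟩
    rw [← Finset.sum_subset hsub]
    · refine Finset.sum_congr rfl fun n hn => ?_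
      simp only [Finset.mem_sdiff, Finset.mem_range, lt_min_iff] at hn
      rw [if_pos hn.1.2]
    · intro n hn hn2
      simp only [Finset.mem_sdiff, Finset.mem_range, lt_min_iff, not_and, not_not] at hn hn2
      rw [if_neg fun h => hn.2 (hn2 ⟨hn.1, h⟩), mul_zero]
  rw [h3]
  have h4 : 0 ≤ (√(A.card : ℝ))⁻¹ := inv_nonneg.2 (Real.sqrt_nonneg _)
  have h5 := mul_le_mul_of_nonneg_left h2 h4
  linarith

lemma eventually_partial (z : Sp 𝕜) (hz : z ∈ Submodule.span 𝕜 (Set.range (e 𝕜))) :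
    ∃ M : ℕ, ∀ m ≥ M, ∑ n ∈ Finset.range m, f 𝕜 n z • e 𝕜 n = z := by
  induction hz using Submodule.span_induction with
  | mem z hz =>
    obtain ⟨k, rfl⟩ := hz
    refine ⟨k + 1, fun m hm => ?_⟩
    simp only [f_e, ite_smul, one_smul, zero_smul]
    rw [Finset.sum_ite_eq', if_pos (Finset.mem_range.2 (by omega))]
  | zero => exact ⟨0, fun m _ => by simp⟩
  | add y z _ _ hy hz =>
    obtain ⟨M₁, h₁⟩ := hy
    obtain ⟨M₂, h₂⟩ := hz
    refine ⟨max M₁ M₂, fun m hm => ?_⟩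
    simp only [map_add, add_smul, Finset.sum_add_distrib]
    rw [h₁ m (le_trans (le_max_left _ _) hm), h₂ m (le_trans (le_max_right _ _) hm)]
  | smul c y _ hy =>
    obtain ⟨M₁, h₁⟩ := hy
    refine ⟨M₁, fun m hm => ?_⟩
    conv_rhs => rw [← h₁ m hm]
    simp only [map_smul, smul_eq_mul, mul_smul, Finset.smul_sum]

lemma schauder (x : Sp 𝕜) :
    Filter.Tendsto (fun m => ∑ n ∈ Finset.range m, f 𝕜 n x • e 𝕜 n) Filter.atTop (nhds x) := by
  rw [Metric.tendsto_atTop]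
  intro δ hδ
  obtain ⟨z, hz, hxz⟩ := Metric.mem_closure_iff.1 (dense_span x) (δ / 2) (by linarith)
  obtain ⟨M, hM⟩ := eventually_partial z hz
  refine ⟨M, fun m hm => ?_⟩
  have h1 : (∑ n ∈ Finset.range m, f 𝕜 n x • e 𝕜 n) - x =
      (∑ n ∈ Finset.range m, f 𝕜 n (x - z) • e 𝕜 n) - (x - z) := by
    simp only [map_sub, sub_smul, Finset.sum_sub_distrib]
    rw [hM m hm]; abel
  rw [dist_eq_norm, h1]
  have h2 := norm_sub_le (∑ n ∈ Finset.range m, f 𝕜 n (x - z) • e 𝕜 n) (x - z)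
  have h3 := norm_partial_le m (x - z)
  rw [dist_eq_norm] at hxz
  linarith

/-! ### The basis is not unconditional -/

lemma alt_sum (m : ℕ) : ∀ b : ℕ → ℝ, Antitone b → (∀ n, 0 ≤ b n) →
    0 ≤ ∑ n ∈ Finset.range m, (-1) ^ n * b n ∧ ∑ n ∈ Finset.range m, (-1) ^ n * b n ≤ b 0 := by
  induction m with
  | zero => intro b _ hb; simp [hb 0]
  | succ m ih =>
    intro b hb hb0
    rw [Finset.sum_range_succ']
    have h1 := ih (fun n => b (n + 1)) (fun i j hij => hb (by omega)) fun n => hb0 _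
    have h2 : ∑ n ∈ Finset.range m, (-1 : ℝ) ^ (n + 1) * b (n + 1) =
        - ∑ n ∈ Finset.range m, (-1 : ℝ) ^ n * b (n + 1) := by
      rw [← Finset.sum_neg_distrib]
      exact Finset.sum_congr rfl fun n _ => by rw [pow_succ]; ring
    rw [h2]
    have h3 := hb (Nat.zero_le 1)
    simp only [pow_zero, one_mul]
    constructor
    · linarith [h1.2]
    · linarith [h1.1]

/-- `1 / √(n + 1)` -/
noncomputable def v (n : ℕ) : ℝ := (√((n + 1 : ℕ) : ℝ))⁻¹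

lemma v_nonneg (n : ℕ) : 0 ≤ v n := inv_nonneg.2 (Real.sqrt_nonneg _)

lemma v_antitone : Antitone v := by
  intro m n hmn
  unfold v
  apply inv_anti₀
  · apply Real.sqrt_pos.2; positivity
  · apply Real.sqrt_le_sqrt; exact_mod_cast (by omega : m + 1 ≤ n + 1)

lemma w_antitone (a : ℕ) : Antitone (w a) := by
  intro m n hmn
  unfold w
  apply inv_anti₀
  · apply Real.sqrt_pos.2
    have : 0 < max (m + 1) a := lt_max_of_lt_left (by omega)
    exact_mod_cast this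
  · apply Real.sqrt_le_sqrt
    exact_mod_cast max_le_max (by omega : m + 1 ≤ n + 1) le_rfl

lemma w_one (n : ℕ) : w 1 n = v n := by
  unfold w v; rw [max_eq_left (by omega)]

lemma v_mul_v (n : ℕ) : v n * v n = 1 / ((n : ℝ) + 1) := by
  unfold v
  rw [← mul_inv, Real.mul_self_sqrt (by positivity)]
  push_cast; rw [one_div]

lemma w_le_v {a n : ℕ} : w a n ≤ v n := by
  unfold w v
  apply inv_anti₀
  · apply Real.sqrt_pos.2; positivity
  · apply Real.sqrt_le_sqrt; exact_mod_cast le_max_left _ _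

lemma v_le_one (n : ℕ) : v n ≤ 1 := inv_sqrt_le_one (Nat.succ_pos n)

lemma sum_range_v (a : ℕ) : ∑ n ∈ Finset.range a, v n ≤ 2 * √(a : ℝ) := by
  induction a with
  | zero => simp
  | succ a ih =>
    rw [Finset.sum_range_succ]
    set r := √(a : ℝ) with hr
    set s := √((a + 1 : ℕ) : ℝ) with hs
    have hr2 : r * r = a := Real.mul_self_sqrt (by positivity)
    have hs2 : s * s = a + 1 := by
      have := Real.mul_self_sqrt (show (0 : ℝ) ≤ ((a + 1 : ℕ) : ℝ) by positivity)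
      rw [← hs] at this
      rw [this]; push_cast; ring
    have hr0 : 0 ≤ r := Real.sqrt_nonneg _
    have hs0 : 0 < s := Real.sqrt_pos.2 (by positivity)
    have hv : v a = s⁻¹ := rfl
    rw [hv]
    have hrs : r ≤ s := by
      rw [hr, hs]; apply Real.sqrt_le_sqrt; push_cast; linarith
    have h1 : s⁻¹ ≤ 2 * (s - r) := by
      rw [inv_le_iff_one_le_mul₀ hs0]
      nlinarith
    linarith

lemma sum_v_le (A : Finset ℕ) (hA : A.Nonempty) : ∑ n ∈ A, v n ≤ 3 * √(A.card : ℝ) := by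
  set a := A.card with ha
  have ha0 : 0 < a := Finset.card_pos.2 hA
  rw [← Finset.sum_filter_add_sum_filter_not A (· < a)]
  have h1 : ∑ n ∈ A.filter (· < a), v n ≤ ∑ n ∈ Finset.range a, v n := by
    apply Finset.sum_le_sum_of_subset_of_nonneg
    · intro n hn
      rw [Finset.mem_filter] at hn
      exact Finset.mem_range.2 hn.2
    · intro n _ _; exact v_nonneg n
  have h2 : ∑ n ∈ A.filter (fun n => ¬ n < a), v n ≤ a * (√(a : ℝ))⁻¹ := by
    have h3 : ∀ n ∈ A.filter (fun n => ¬ n < a), v n ≤ (√(a : ℝ))⁻¹ := by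
      intro n hn
      rw [Finset.mem_filter] at hn
      unfold v
      apply inv_anti₀
      · exact Real.sqrt_pos.2 (by exact_mod_cast ha0)
      · apply Real.sqrt_le_sqrt; exact_mod_cast (by omega : a ≤ n + 1)
    have h4 := Finset.sum_le_card_nsmul _ _ _ h3
    rw [nsmul_eq_mul] at h4
    refine h4.trans (mul_le_mul_of_nonneg_right ?_ (inv_nonneg.2 (Real.sqrt_nonneg _)))
    exact_mod_cast Finset.card_filter_le _ _
  have h3 : (a : ℝ) * (√(a : ℝ))⁻¹ = √(a : ℝ) := by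
    have h0 : √(a : ℝ) ≠ 0 := (Real.sqrt_pos.2 (by exact_mod_cast ha0)).ne'
    field_simp
    rw [Real.sq_sqrt (by positivity)]
  have h4 := sum_range_v a
  linarith

/-- The test vectors `∑_{n < 2N} (-1)^n (n+1)^{-1/2} e_n`. -/
noncomputable def tv (𝕜 : Type) [RCLike 𝕜] (N : ℕ) : Sp 𝕜 :=
  ∑ n ∈ Finset.range (2 * N), ((((-1) ^ n * v n : ℝ)) : 𝕜) • e 𝕜 n

lemma f_tv (N n : ℕ) :
    f 𝕜 n (tv 𝕜 N) = if n < 2 * N then ((((-1) ^ n * v n : ℝ)) : 𝕜) else 0 := by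
  unfold tv; rw [f_sum]; simp only [Finset.mem_range]

lemma norm_f_tv_le (N n : ℕ) : ‖f 𝕜 n (tv 𝕜 N)‖ ≤ v n := by
  rw [f_tv]
  split_ifs
  · rw [RCLike.norm_ofReal, abs_mul, abs_pow, abs_neg, abs_one, one_pow, one_mul,
      abs_of_nonneg (v_nonneg n)]
  · rw [norm_zero]; exact v_nonneg n

lemma norm_tv_le (N : ℕ) : ‖tv 𝕜 N‖ ≤ 4 := by
  apply norm_le_of_V
  intro A K hA
  have ha0 : 0 < A.card := Finset.card_pos.2 hA
  have hs0 : 0 < √(A.card : ℝ) := Real.sqrt_pos.2 (by exact_mod_cast ha0)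
  have hs1 : 0 ≤ (√(A.card : ℝ))⁻¹ := inv_nonneg.2 hs0.le
  have h1 : (√(A.card : ℝ))⁻¹ * ∑ n ∈ A, ‖f 𝕜 n (tv 𝕜 N)‖ ≤ 3 := by
    have h2 : ∑ n ∈ A, ‖f 𝕜 n (tv 𝕜 N)‖ ≤ 3 * √(A.card : ℝ) :=
      (Finset.sum_le_sum fun n _ => norm_f_tv_le N n).trans (sum_v_le A hA)
    have h3 := mul_le_mul_of_nonneg_left h2 hs1
    refine h3.trans (le_of_eq ?_)
    field_simp
  have h2 : ‖∑ n ∈ Finset.range K \ A, ((w A.card n : ℝ) : 𝕜) * f 𝕜 n (tv 𝕜 N)‖ ≤ 4 := by
    have h3 : ∑ n ∈ Finset.range K \ A, ((w A.card n : ℝ) : 𝕜) * f 𝕜 n (tv 𝕜 N) =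
        ∑ n ∈ Finset.range K, ((w A.card n : ℝ) : 𝕜) * f 𝕜 n (tv 𝕜 N) -
        ∑ n ∈ Finset.range K ∩ A, ((w A.card n : ℝ) : 𝕜) * f 𝕜 n (tv 𝕜 N) := by
      rw [eq_sub_iff_add_eq, add_comm]
      exact Finset.sum_inter_add_sum_sdiff _ _ _
    have h4 : ∑ n ∈ Finset.range K, ((w A.card n : ℝ) : 𝕜) * f 𝕜 n (tv 𝕜 N) =
        ((∑ n ∈ Finset.range (min K (2 * N)), (-1) ^ n * (w A.card n * v n) : ℝ) : 𝕜) := by
      have hsub : Finset.range (min K (2 * N)) ⊆ Finset.range K := by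
        intro n; simp only [Finset.mem_range, lt_min_iff]; exact fun h => h.1
      rw [← Finset.sum_subset hsub]
      · rw [RCLike.ofReal_sum]
        refine Finset.sum_congr rfl fun n hn => ?_
        rw [Finset.mem_range, lt_min_iff] at hn
        rw [f_tv, if_pos hn.2]
        push_cast; ring
      · intro n hn hn2
        simp only [Finset.mem_range, lt_min_iff, not_and] at hn hn2
        rw [f_tv, if_neg (hn2 hn), mul_zero]
    have h5 : ‖∑ n ∈ Finset.range K, ((w A.card n : ℝ) : 𝕜) * f 𝕜 n (tv 𝕜 N)‖ ≤ 1 := by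
      rw [h4, RCLike.norm_ofReal]
      have h6 := alt_sum (min K (2 * N)) (fun n => w A.card n * v n)
        (fun m n hmn => mul_le_mul (w_antitone _ hmn) (v_antitone hmn) (v_nonneg _) (w_nonneg _ _))
        (fun n => mul_nonneg (w_nonneg _ _) (v_nonneg _))
      rw [abs_of_nonneg h6.1]
      refine h6.2.trans ?_
      exact mul_le_one₀ (w_le_v.trans (v_le_one 0)) (v_nonneg 0) (v_le_one 0)
    have h6 : ‖∑ n ∈ Finset.range K ∩ A, ((w A.card n : ℝ) : 𝕜) * f 𝕜 n (tv 𝕜 N)‖ ≤ 3 := by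
      refine (norm_sum_le _ _).trans ?_
      have h7 : ∀ n ∈ Finset.range K ∩ A, ‖((w A.card n : ℝ) : 𝕜) * f 𝕜 n (tv 𝕜 N)‖ ≤
          (√(A.card : ℝ))⁻¹ * v n := by
        intro n _
        rw [norm_mul, RCLike.norm_ofReal, abs_of_nonneg (w_nonneg _ _)]
        exact mul_le_mul (w_le_inv_sqrt ha0 n) (norm_f_tv_le N n) (norm_nonneg _) hs1
      refine (Finset.sum_le_sum h7).trans ?_
      rw [← Finset.mul_sum]
      have h8 : ∑ n ∈ Finset.range K ∩ A, v n ≤ ∑ n ∈ A, v n :=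
        Finset.sum_le_sum_of_subset_of_nonneg Finset.inter_subset_right fun n _ _ => v_nonneg n
      have h9 := mul_le_mul_of_nonneg_left (h8.trans (sum_v_le A hA)) hs1
      refine h9.trans (le_of_eq ?_)
      field_simp
    rw [h3]
    have := norm_sub_le (∑ n ∈ Finset.range K, ((w A.card n : ℝ) : 𝕜) * f 𝕜 n (tv 𝕜 N))
      (∑ n ∈ Finset.range K ∩ A, ((w A.card n : ℝ) : 𝕜) * f 𝕜 n (tv 𝕜 N))
    linarith
  unfold V
  linarith

/-- The even indices below `2N`. -/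
def ev2 (N : ℕ) : Finset ℕ := (Finset.range N).image (2 * ·)

lemma even_lower (N : ℕ) :
    1 / 16 * ∑ k ∈ Finset.range N, 1 / ((k : ℝ) + 1) ≤
      ‖∑ n ∈ ev2 N, f 𝕜 n (tv 𝕜 N) • e 𝕜 n‖ := by
  refine le_trans ?_ (V_le_norm {2 * N} (2 * N) (by simp) _)
  have h1 : (fun n => f 𝕜 n (∑ n ∈ ev2 N, f 𝕜 n (tv 𝕜 N) • e 𝕜 n)) =
      fun n => if n ∈ ev2 N then ((v n : ℝ) : 𝕜) else 0 := by
    funext n
    rw [f_sum]
    split_ifs with h
    · unfold ev2 at h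
      rw [Finset.mem_image] at h
      obtain ⟨k, hk, rfl⟩ := h
      rw [Finset.mem_range] at hk
      rw [f_tv, if_pos (by omega)]
      simp [pow_mul]
    · rfl
  rw [h1]
  unfold V
  simp only [Finset.card_singleton, Nat.cast_one, Real.sqrt_one, inv_one, one_mul, w_one]
  have h2 : ∑ n ∈ Finset.range (2 * N) \ {2 * N},
      ((v n : ℝ) : 𝕜) * (if n ∈ ev2 N then ((v n : ℝ) : 𝕜) else 0) =
      ((∑ k ∈ Finset.range N, 1 / ((2 * k : ℕ) + 1 : ℝ) : ℝ) : 𝕜) := by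
    have hsub : ev2 N ⊆ Finset.range (2 * N) \ {2 * N} := by
      intro n hn
      unfold ev2 at hn
      rw [Finset.mem_image] at hn
      obtain ⟨k, hk, rfl⟩ := hn
      rw [Finset.mem_range] at hk
      simp only [Finset.mem_sdiff, Finset.mem_range, Finset.mem_singleton]
      omega
    rw [← Finset.sum_subset hsub]
    · unfold ev2
      rw [Finset.sum_image (by intro a _ b _ h; simpa using h), RCLike.ofReal_sum]
      refine Finset.sum_congr rfl fun k hk => ?_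
      rw [if_pos (Finset.mem_image_of_mem _ hk), ← RCLike.ofReal_mul, v_mul_v]
    · intro n _ hn
      rw [if_neg hn, mul_zero]
  rw [h2, RCLike.norm_ofReal, abs_of_nonneg (Finset.sum_nonneg fun k _ => by positivity)]
  have h3 : 1 / 2 * ∑ k ∈ Finset.range N, 1 / ((k : ℝ) + 1) ≤
      ∑ k ∈ Finset.range N, 1 / ((2 * k : ℕ) + 1 : ℝ) := by
    rw [Finset.mul_sum]
    apply Finset.sum_le_sum
    intro k _
    rw [div_mul_div_comm, one_mul]
    apply one_div_le_one_div_of_le (by positivity)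
    push_cast; linarith
  have h4 : 0 ≤ ∑ n ∈ ({2 * N} : Finset ℕ), ‖if n ∈ ev2 N then ((v n : ℝ) : 𝕜) else 0‖ :=
    Finset.sum_nonneg fun _ _ => norm_nonneg _
  linarith

lemma not_unconditional : ¬ IsUnconditional (e 𝕜) (f 𝕜) := by
  intro h
  have hpt : ∀ x : Sp 𝕜, ∃ C : ℝ, ∀ A : Finset ℕ,
      ‖(∑ n ∈ A, (f 𝕜 n).smulRight (e 𝕜 n) : Sp 𝕜 →L[𝕜] Sp 𝕜) x‖ ≤ C := by
    intro x
    have hx := h x
    rw [HasSum, SummationFilter.unconditional_filter, Metric.tendsto_atTop] at hx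
    obtain ⟨A₀, hA₀⟩ := hx 1 one_pos
    refine ⟨1 + ‖x‖ + ∑ n ∈ A₀, ‖f 𝕜 n x • e 𝕜 n‖, fun A => ?_⟩
    have h1 : (∑ n ∈ A, (f 𝕜 n).smulRight (e 𝕜 n) : Sp 𝕜 →L[𝕜] Sp 𝕜) x =
        ∑ n ∈ A, f 𝕜 n x • e 𝕜 n := by
      rw [sum_apply]
      rfl
    rw [h1]
    have h2 : ∑ n ∈ A, f 𝕜 n x • e 𝕜 n =
        (∑ n ∈ A ∪ A₀, f 𝕜 n x • e 𝕜 n - x) + x - ∑ n ∈ A₀ \ A, f 𝕜 n x • e 𝕜 n := by
      rw [← Finset.union_sdiff_self_eq_union, Finset.sum_union Finset.disjoint_sdiff]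
      abel
    have h3 := hA₀ (A ∪ A₀) Finset.subset_union_right
    rw [dist_eq_norm] at h3
    have h4 : ‖∑ n ∈ A₀ \ A, f 𝕜 n x • e 𝕜 n‖ ≤ ∑ n ∈ A₀, ‖f 𝕜 n x • e 𝕜 n‖ :=
      (norm_sum_le _ _).trans (Finset.sum_le_sum_of_subset_of_nonneg Finset.sdiff_subset
        fun _ _ _ => norm_nonneg _)
    rw [h2]
    have h5 := norm_sub_le ((∑ n ∈ A ∪ A₀, f 𝕜 n x • e 𝕜 n - x) + x)
      (∑ n ∈ A₀ \ A, f 𝕜 n x • e 𝕜 n)
    have h6 := norm_add_le (∑ n ∈ A ∪ A₀, f 𝕜 n x • e 𝕜 n - x) x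
    linarith
  obtain ⟨C, hC⟩ := banach_steinhaus hpt
  have hdiv := Real.tendsto_sum_range_one_div_nat_succ_atTop
  rw [Filter.tendsto_atTop] at hdiv
  obtain ⟨N, hN⟩ := (hdiv (64 * C + 16)).exists
  have h1 := even_lower (𝕜 := 𝕜) N
  have h2 : ‖∑ n ∈ ev2 N, f 𝕜 n (tv 𝕜 N) • e 𝕜 n‖ ≤ C * 4 := by
    have h3 := (∑ n ∈ ev2 N, (f 𝕜 n).smulRight (e 𝕜 n) : Sp 𝕜 →L[𝕜] Sp 𝕜).le_opNorm (tv 𝕜 N)
    have h4 : (∑ n ∈ ev2 N, (f 𝕜 n).smulRight (e 𝕜 n) : Sp 𝕜 →L[𝕜] Sp 𝕜) (tv 𝕜 N) =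
        ∑ n ∈ ev2 N, f 𝕜 n (tv 𝕜 N) • e 𝕜 n := by
      rw [sum_apply]
      rfl
    rw [h4] at h3
    have h5 := hC (ev2 N)
    have h6 := norm_tv_le (𝕜 := 𝕜) N
    have h7 : 0 ≤ ‖(∑ n ∈ ev2 N, (f 𝕜 n).smulRight (e 𝕜 n) : Sp 𝕜 →L[𝕜] Sp 𝕜)‖ :=
      ContinuousLinearMap.opNorm_nonneg _
    have h8 := norm_nonneg (tv 𝕜 N)
    nlinarith
  linarith

end Space

/-- Over `𝕜 = ℝ` and over `𝕜 = ℂ` there is a Banach space with a semi-normalized Markushevich
basis (moreover a normalized monotone Schauder basis) that has Property (A) but is not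
unconditional. -/
theorem result (𝕜 : Type) [RCLike 𝕜] :
    ∃ (X : Type) (_ : NormedAddCommGroup X) (_ : NormedSpace 𝕜 X) (_ : CompleteSpace X)
      (e : ℕ → X) (f : ℕ → X →L[𝕜] 𝕜),
      IsSemiNormalizedMBasis e f ∧ (∀ n, ‖e n‖ = 1 ∧ ‖f n‖ = 1) ∧
      (∀ x : X, Filter.Tendsto (fun m => ∑ n ∈ Finset.range m, f n x • e n) Filter.atTop
        (nhds x)) ∧
      PropertyA e f ∧ ¬ IsUnconditional e f :=
  ⟨Sp 𝕜, inferInstance, inferInstance, inferInstance, e 𝕜, f 𝕜, isSemiNormalizedMBasis,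
    fun n => ⟨norm_e n, norm_f n⟩, schauder, propertyA, not_unconditional⟩

end Pool.Agent.Results.MP_e9a5f2_an.ConditionalA
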